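import Pool.Agent.Q56.WL.Cen
import Pool.Agent.Q235.FD.Points
import Pool.Agent.Q43.UN.Mer

/-!
# Values of affine forms at integers near powers with non-integral exponents: they are not `ℓ`-th powers

The values `a_0 + Σ a_l n_l` of many affine forms at ALL tuples of integers in windows near the real points
`β_l + w_l i ^ e_l`, for almost all index vectors `i`: their products with small twists are not `ℓ`-th powers of integers
(`ℓ` a prime). The primes `p = 1 mod ℓ` (Mertens' theorem in progressions, `Q43.UN.mer`) and the general law for functions of the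
residues (`Q56.WL`) are used.
-/

set_option autoImplicit false

namespace Pool.Agent.Q77.NP

open Finset Filter
open Pool.Agent.Q56.WL
open Pool.Agent.Q235.FD (Sets funData law_fun avg avg_mono avg_const Form val valMod val_cast shift_avg Primitive
  primesTo mem_primesTo few_primes avg_zmod val_mod box mem_box card_box_le)
open Pool.Agent.TH888.R (VS wt)
open Pool.Agent.Q43.UN (Cl mer)

/-! ### Functions with averages zero, with parameters depending on `θ` -/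

theorem centered_fam {L : Type} [Fintype L] {m : ℕ} {e w : L → ℝ} {μ : L → Fin m} (hs : Setting e w μ) {δ : ℝ} (hδ : 0 < δ)
    (A W A₃ : ℕ) {Θ τ : Type} (S : Sets 0)
    (U : Θ → ℕ → Finset τ) (hU : ∀ θ x, 2 ≤ x → (U θ x).card ≤ x ^ A₃) (G : τ → ℕ → (L → ℕ) → ℝ)
    (hper : ∀ t p n, p.Prime → G t p n = G t p (fun i => n i % p))
    (hbd : ∀ t p n, p.Prime → |G t p n| ≤ 1) (hav : ∀ t p, p.Prime → avg p (G t p) = 0) :
    ForAlmostAll e w μ A W (fun (θ : Θ) x n => ∀ P ∈ S.S x, ∀ t ∈ U θ x,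
      |∑ p ∈ P, G t p n| ≤ Real.sqrt (max 1 P.card) * (x : ℝ) ^ δ) := by
  refine forAlmostAll_of hs hδ A W (fun θ : Θ => funData S (U θ) (hU θ) G hper hbd) 0 ?_
  intro θ x n _ h P hP t ht
  have hPr := S.prime x P hP
  have h1 := law_fun S (U θ) (hU θ) _ hper hbd h P hP t ht
  have h2 : ∑ p ∈ P, avg p (fun n => (G t p n) ^ 2) ≤ P.card := by
    have : ∑ p ∈ P, avg p (fun n => (G t p n) ^ 2) ≤ ∑ p ∈ P, (1 : ℝ) := by
      apply sum_le_sum
      intro p hp
      have h3 : avg p (fun n => (G t p n) ^ 2) ≤ avg (L := L) p (fun _ => 1) := by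
        apply avg_mono
        intro n
        rw [sq_le_one_iff_abs_le_one]
        exact hbd t p n (hPr p hp).1
      rwa [avg_const (hPr p hp).1.one_lt.le] at h3
    simpa using this
  have h3 : ∑ p ∈ P, avg p (G t p) = 0 := sum_eq_zero fun p hp => hav t p (hPr p hp).1
  rw [h3, sub_zero] at h1
  exact h1.trans (mul_le_mul_of_nonneg_right (Real.sqrt_le_sqrt (max_le_max le_rfl h2)) (by positivity))

/-! ### Primes `1` modulo `ℓ` -/

/-- the primes `p ≤ x`, `p = 1 mod ℓ`, `p ≥ 3` -/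
def Pset (ℓ x : ℕ) : Finset ℕ := (primesTo x).filter (fun p => p % ℓ = 1 ∧ 3 ≤ p)

lemma mem_Pset {ℓ x p : ℕ} : p ∈ Pset ℓ x ↔ (p.Prime ∧ p ≤ x) ∧ p % ℓ = 1 ∧ 3 ≤ p := by
  unfold Pset
  rw [mem_filter, mem_primesTo]

def apSets (ℓ : ℕ) : Sets 0 where
  S := fun x => {Pset ℓ x}
  card := by intro x; simp
  prime := by
    intro x P hP p hp
    rw [mem_singleton] at hP
    rw [hP, mem_Pset] at hp
    exact hp.1

/-- there are many such primes -/
lemma many_ap {ℓ : ℕ} (hℓ : ℓ.Prime) : ∃ x₁ : ℕ, ∀ x : ℕ, x₁ ≤ x → (x : ℝ) ^ (1 / 4 : ℝ) ≤ (Pset ℓ x).card := by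
  classical
  obtain ⟨C, hC0, hC⟩ := mer
  have hφ : (0 : ℝ) < Nat.totient ℓ := by exact_mod_cast Nat.totient_pos.2 hℓ.pos
  -- the range of `x`
  have h1 : Tendsto (fun x : ℕ => Real.log x) atTop atTop := Real.tendsto_log_atTop.comp tendsto_natCast_atTop_atTop
  have hev := h1.eventually (eventually_ge_atTop (Nat.totient ℓ * (4 * C + 4) + 1))
  have h2 : Tendsto (fun x : ℕ => (x : ℝ) ^ (1 / 8 : ℝ)) atTop atTop :=
    (tendsto_rpow_atTop (by norm_num)).comp tendsto_natCast_atTop_atTop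
  have hev2 := h2.eventually (eventually_ge_atTop 8)
  obtain ⟨x₁, hx₁⟩ := eventually_atTop.1 (hev.and hev2)
  refine ⟨x₁ + 16, fun x hx => ?_⟩
  obtain ⟨hl, h8⟩ := hx₁ x (by omega)
  have hx16 : (16 : ℝ) ≤ x := by exact_mod_cast (by omega : 16 ≤ x)
  have hx0 : (0 : ℝ) < x := by linarith
  have hx1 : (1 : ℝ) ≤ x := by linarith
  obtain ⟨s, hs⟩ : ∃ s, s = Nat.sqrt x := ⟨_, rfl⟩
  have hs4 : 4 ≤ s := by rw [hs, Nat.le_sqrt]; omega
  have hs1 : 1 ≤ s := by omega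
  have hsx : s ≤ x := by rw [hs]; exact Nat.sqrt_le_self x
  have hss : s * s ≤ x := by rw [hs]; exact Nat.sqrt_le x
  have hss' : x < (s + 1) * (s + 1) := by rw [hs]; exact Nat.lt_succ_sqrt x
  have hℓ2 : 2 ≤ ℓ := hℓ.two_le
  have hlogx : 0 < Real.log x := Real.log_pos (by linarith)
  have hA := (abs_le.1 (hC ℓ hℓ.pos 1 (Nat.coprime_one_left ℓ) x (by omega))).1
  have hB := (abs_le.1 (hC ℓ hℓ.pos 1 (Nat.coprime_one_left ℓ) s hs1)).2
  have hlogs : Real.log s ≤ Real.log x / 2 := by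
    have h3 : (s : ℝ) * s ≤ x := by exact_mod_cast hss
    have hs0 : (0 : ℝ) < s := by exact_mod_cast (by omega : 0 < s)
    have h4 := Real.log_le_log (by positivity) h3
    rw [Real.log_mul hs0.ne' hs0.ne'] at h4
    linarith
  have hφ1 : Real.log s / Nat.totient ℓ ≤ Real.log x / 2 / Nat.totient ℓ :=
    div_le_div_of_nonneg_right hlogs hφ.le
  have hφ2 : 4 * C + 4 ≤ Real.log x / Nat.totient ℓ := by
    rw [le_div_iff₀ hφ]
    linarith [mul_comm ((Nat.totient ℓ : ℝ)) (4 * C + 4)]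
  have hφ3 : Real.log x / 2 / Nat.totient ℓ = Real.log x / Nat.totient ℓ / 2 := by ring
  have hdiff : 1 ≤ VS (Cl ℓ 1) x - VS (Cl ℓ 1) s := by linarith
  -- the terms
  have hsplit : VS (Cl ℓ 1) x - VS (Cl ℓ 1) s ≤ (Pset ℓ x).card * (Real.log x / (x : ℝ) ^ (1 / 2 : ℝ)) := by
    unfold VS
    rw [← sum_range_add_sum_Ico _ (by omega : s + 1 ≤ x + 1), add_sub_cancel_left]
    have h3 : ∀ q ∈ Ico (s + 1) (x + 1), (if q ∈ Cl ℓ 1 ∧ q.Prime then wt q else 0) ≤
        if q ∈ Pset ℓ x then Real.log x / (x : ℝ) ^ (1 / 2 : ℝ) else 0 := by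
      intro q hq
      rw [mem_Ico] at hq
      by_cases hqc : q ∈ Cl ℓ 1 ∧ q.Prime
      · have h4 : q % ℓ = 1 := by
          have h5 : q % ℓ = 1 % ℓ := hqc.1
          rw [h5, Nat.mod_eq_of_lt (by omega)]
        rw [if_pos hqc, if_pos (mem_Pset.2 ⟨⟨hqc.2, by omega⟩, h4, by omega⟩)]
        unfold wt
        have hqx : (q : ℝ) ≤ x := by exact_mod_cast (by omega : q ≤ x)
        have hq0 : (0 : ℝ) < q := by exact_mod_cast (by omega : 0 < q)
        have h6 : (x : ℝ) ^ (1 / 2 : ℝ) ≤ q := by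
          rw [← Real.sqrt_eq_rpow]
          rw [Real.sqrt_le_left hq0.le]
          have h7 : (x : ℝ) ≤ (q : ℝ) ^ 2 := by
            have h8 : x ≤ q * q := hss'.le.trans (Nat.mul_le_mul hq.1 hq.1)
            calc (x : ℝ) ≤ ((q * q : ℕ) : ℝ) := by exact_mod_cast h8
              _ = (q : ℝ) ^ 2 := by push_cast; ring
          exact h7
        exact div_le_div₀ hlogx.le (Real.log_le_log hq0 hqx) (by positivity) h6
      · rw [if_neg hqc]
        split_ifs
        · positivity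
        · exact le_rfl
    refine (sum_le_sum h3).trans ?_
    rw [← sum_filter, sum_const, nsmul_eq_mul]
    refine mul_le_mul_of_nonneg_right ?_ (by positivity)
    exact_mod_cast card_le_card (fun q hq => (mem_filter.1 hq).2)
  have hhalf : (x : ℝ) ^ (1 / 2 : ℝ) = (x : ℝ) ^ (1 / 4 : ℝ) * (x : ℝ) ^ (1 / 4 : ℝ) := by
    rw [← Real.rpow_add hx0]; norm_num
  have hquart : (x : ℝ) ^ (1 / 4 : ℝ) = (x : ℝ) ^ (1 / 8 : ℝ) * (x : ℝ) ^ (1 / 8 : ℝ) := by
    rw [← Real.rpow_add hx0]; norm_num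
  have hlog8 : Real.log x ≤ (x : ℝ) ^ (1 / 4 : ℝ) := by
    have h3 := Real.log_le_rpow_div hx0.le (show (0 : ℝ) < 1 / 8 by norm_num)
    rw [hquart]
    have h4 : (0 : ℝ) ≤ (x : ℝ) ^ (1 / 8 : ℝ) := by positivity
    calc Real.log x ≤ (x : ℝ) ^ (1 / 8 : ℝ) / (1 / 8) := h3
      _ = 8 * (x : ℝ) ^ (1 / 8 : ℝ) := by ring
      _ ≤ _ := mul_le_mul_of_nonneg_right h8 h4
  have h5 := hdiff.trans hsplit
  have hq0 : (0 : ℝ) < (x : ℝ) ^ (1 / 4 : ℝ) := by positivity
  rw [← mul_div_assoc, le_div_iff₀ (by positivity), one_mul, hhalf] at h5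
  have h6 : ((Pset ℓ x).card : ℝ) * Real.log x ≤ (Pset ℓ x).card * (x : ℝ) ^ (1 / 4 : ℝ) :=
    mul_le_mul_of_nonneg_left hlog8 (by positivity)
  exact le_of_mul_le_mul_right (h5.trans h6) hq0

/-! ### The indicator function of the `ℓ`-th powers -/

open Classical in
/-- the indicator function of the `ℓ`-th powers modulo `p` -/
noncomputable def pw (ℓ p : ℕ) (c : ZMod p) : ℝ := if ∃ d : ZMod p, d ^ ℓ = c then 1 else 0

lemma pw_nonneg (ℓ p : ℕ) (c : ZMod p) : 0 ≤ pw ℓ p c := by unfold pw; split_ifs <;> norm_num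

lemma pw_le (ℓ p : ℕ) (c : ZMod p) : pw ℓ p c ≤ 1 := by unfold pw; split_ifs <;> norm_num

/-- the density of the `ℓ`-th powers -/
noncomputable def dens (ℓ p : ℕ) [Fact p.Prime] : ℝ := (∑ c : ZMod p, pw ℓ p c) / p

lemma dens_nonneg (ℓ p : ℕ) [Fact p.Prime] : 0 ≤ dens ℓ p :=
  div_nonneg (sum_nonneg fun c _ => pw_nonneg ℓ p c) (Nat.cast_nonneg _)

lemma dens_le (ℓ p : ℕ) [Fact p.Prime] (hℓ : ℓ.Prime) (hp3 : 3 ≤ p) (h : p % ℓ = 1) : dens ℓ p ≤ 2 / 3 := by
  classical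
  have hp0 : (0 : ℝ) < p := by exact_mod_cast (Fact.out : p.Prime).pos
  -- an `ℓ`-th root of unity
  obtain ⟨ζ, hζ, hζ1⟩ : ∃ ζ : ZMod p, ζ ^ ℓ = 1 ∧ ζ ≠ 1 := by
    have hdvd : ℓ ∣ Fintype.card (ZMod p)ˣ := by
      rw [ZMod.card_units_eq_totient, Nat.totient_prime Fact.out]
      exact (Nat.modEq_iff_dvd' (by omega)).1 (show 1 % ℓ = p % ℓ by
        rw [h, Nat.mod_eq_of_lt hℓ.one_lt])
    have : Fact ℓ.Prime := ⟨hℓ⟩
    obtain ⟨u, hu⟩ := exists_prime_orderOf_dvd_card ℓ hdvd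
    refine ⟨(u : ZMod p), ?_, ?_⟩
    · have h1 := pow_orderOf_eq_one u
      rw [hu] at h1
      have h3 := congrArg Units.val h1
      rw [Units.val_pow_eq_pow_val, Units.val_one] at h3
      exact h3
    · intro h1
      have h2 : u = 1 := Units.ext h1
      rw [h2, orderOf_one] at hu
      exact hℓ.one_lt.ne hu
  have h1 : 2 * (((univ : Finset (ZMod p)).erase 0).image (fun d => d ^ ℓ)).card ≤
      ((univ : Finset (ZMod p)).erase 0).card := by
    refine mul_card_image_le_card _ _ ?_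
    intro a ha
    rw [mem_image] at ha
    obtain ⟨d, hd, rfl⟩ := ha
    rw [mem_erase] at hd
    have h2 : ({d, ζ * d} : Finset (ZMod p)) ⊆ ((univ : Finset (ZMod p)).erase 0).filter (fun x => x ^ ℓ = d ^ ℓ) := by
      intro x hx
      rw [mem_insert, mem_singleton] at hx
      rw [mem_filter, mem_erase]
      rcases hx with rfl | rfl
      · exact ⟨⟨hd.1, mem_univ _⟩, rfl⟩
      · refine ⟨⟨mul_ne_zero ?_ hd.1, mem_univ _⟩, by rw [mul_pow, hζ, one_mul]⟩
        rintro rfl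
        rw [zero_pow hℓ.ne_zero] at hζ
        exact zero_ne_one hζ
    refine le_trans ?_ (card_le_card h2)
    rw [card_pair]
    intro h3
    apply hζ1
    have h4 : ζ * d = 1 * d := by rw [one_mul]; exact h3.symm
    exact mul_right_cancel₀ hd.1 h4
  have h2 : ((univ : Finset (ZMod p)).erase 0).card = p - 1 := by
    rw [card_erase_of_mem (mem_univ _), card_univ, ZMod.card]
  have h3 : ∑ c : ZMod p, pw ℓ p c ≤
      (insert 0 (((univ : Finset (ZMod p)).erase 0).image (fun d => d ^ ℓ))).card := by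
    have h4 : ∀ c : ZMod p, pw ℓ p c ≤
        if c ∈ insert 0 (((univ : Finset (ZMod p)).erase 0).image (fun d => d ^ ℓ)) then (1 : ℝ) else 0 := by
      intro c
      unfold pw
      by_cases hc : ∃ d : ZMod p, d ^ ℓ = c
      · obtain ⟨d, hd⟩ := hc
        rw [if_pos ⟨d, hd⟩, if_pos]
        rw [mem_insert, mem_image]
        by_cases hd0 : d = 0
        · left
          rw [← hd, hd0, zero_pow hℓ.ne_zero]
        · exact Or.inr ⟨d, mem_erase.2 ⟨hd0, mem_univ _⟩, hd⟩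
      · rw [if_neg hc]
        split_ifs <;> norm_num
    refine (sum_le_sum fun c _ => h4 c).trans (le_of_eq ?_)
    rw [sum_ite_mem, univ_inter, sum_const, nsmul_eq_mul, mul_one]
  have h4 := card_insert_le (0 : ZMod p) (((univ : Finset (ZMod p)).erase 0).image (fun d => d ^ ℓ))
  obtain ⟨I, hI⟩ : ∃ I, I = (((univ : Finset (ZMod p)).erase 0).image (fun d => d ^ ℓ)).card := ⟨_, rfl⟩
  rw [← hI] at h1 h4
  rw [h2] at h1
  have h5 : ∑ c : ZMod p, pw ℓ p c ≤ (I : ℝ) + 1 := by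
    refine h3.trans ?_
    exact_mod_cast h4
  have h6 : (2 : ℝ) * I ≤ p - 1 := by
    have h7 : 2 * I + 1 ≤ p := by omega
    have h8 : ((2 * I + 1 : ℕ) : ℝ) ≤ p := by exact_mod_cast h7
    push_cast at h8
    linarith
  have h7 : (3 : ℝ) ≤ p := by exact_mod_cast hp3
  unfold dens
  rw [div_le_iff₀ hp0]
  linarith

open Classical in
/-- the centered indicator function -/
noncomputable def gpow {L : Type} [Fintype L] (ℓ : ℕ) (t : Form L) (p : ℕ) (m : L → ℕ) : ℝ :=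
  if h : p.Prime ∧ Primitive t p ∧ ¬ (p : ℤ) ∣ t.2 then
    (haveI : Fact p.Prime := ⟨h.1⟩; pw ℓ p (((t.2 * val t.1.1 t.1.2 m : ℤ) : ZMod p)) - dens ℓ p) else 0

section

variable {L : Type} [Fintype L]

lemma gpow_mod (ℓ : ℕ) (t : Form L) (p : ℕ) (m : L → ℕ) : gpow ℓ t p m = gpow ℓ t p (fun l => m l % p) := by
  classical
  unfold gpow
  split_ifs with h
  · congr 2
    push_cast
    rw [val_mod]
  · rfl

lemma gpow_bound (ℓ : ℕ) (t : Form L) (p : ℕ) (m : L → ℕ) : |gpow ℓ t p m| ≤ 1 := by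
  classical
  unfold gpow
  split_ifs with h
  · have : Fact p.Prime := ⟨h.1⟩
    have h1 := pw_nonneg ℓ p (((t.2 * val t.1.1 t.1.2 m : ℤ) : ZMod p))
    have h2 := pw_le ℓ p (((t.2 * val t.1.1 t.1.2 m : ℤ) : ZMod p))
    have h3 := dens_nonneg ℓ p
    have h4 : dens ℓ p ≤ 1 := by
      unfold dens
      have hp0 : (0 : ℝ) < p := by exact_mod_cast h.1.pos
      rw [div_le_one hp0]
      calc ∑ c : ZMod p, pw ℓ p c ≤ ∑ c : ZMod p, (1 : ℝ) := sum_le_sum fun c _ => pw_le ℓ p c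
        _ = p := by simp
    rw [abs_le]
    constructor <;> linarith
  · simp

lemma avg_gpow (ℓ : ℕ) (t : Form L) {p : ℕ} (hp : p.Prime) : avg p (gpow ℓ t p) = 0 := by
  classical
  have : Fact p.Prime := ⟨hp⟩
  have hp0 : (p : ℝ) ≠ 0 := by exact_mod_cast hp.ne_zero
  by_cases h : p.Prime ∧ Primitive t p ∧ ¬ (p : ℤ) ∣ t.2
  · have e : gpow ℓ t p = fun n => (fun v : L → ZMod p => pw ℓ p ((t.2 : ZMod p) * valMod t.1.1 t.1.2 v) - dens ℓ p)
        (fun l => (n l : ZMod p)) := by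
      funext n
      unfold gpow
      rw [dif_pos h]
      beta_reduce
      rw [← val_cast]
      congr 2
      push_cast
      rfl
    obtain ⟨l, hl⟩ := h.2.1
    rw [e, avg_zmod (fun v : L → ZMod p => pw ℓ p ((t.2 : ZMod p) * valMod t.1.1 t.1.2 v) - dens ℓ p),
      shift_avg (fun c => pw ℓ p ((t.2 : ZMod p) * c) - dens ℓ p) t.1.1 t.1.2 hl]
    have hd : (t.2 : ZMod p) ≠ 0 := fun h0 => h.2.2 ((ZMod.intCast_zmod_eq_zero_iff_dvd _ _).1 h0)
    have e2 : ∑ c : ZMod p, (pw ℓ p ((t.2 : ZMod p) * c) - dens ℓ p) = 0 := by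
      rw [sum_sub_distrib, sum_const, card_univ, ZMod.card, nsmul_eq_mul,
        Function.Bijective.sum_comp (e := fun c => (t.2 : ZMod p) * c) (mulLeft_bijective₀ _ hd) (pw ℓ p)]
      unfold dens
      field_simp
      ring
    rw [e2]
    simp
  · have e : gpow ℓ t p = fun _ => 0 := by
      funext n
      unfold gpow
      rw [dif_neg h]
    rw [e, avg_const hp.one_lt.le]

end

/-- if a twisted value is an `ℓ`-th power then the sum of the centered indicator functions is large -/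
lemma sum_gpow_ge {L : Type} [Fintype L] {ℓ : ℕ} (hℓ : ℓ.Prime) (t : Form L) (x : ℕ) (n : L → ℕ) {k : ℤ}
    (hk : t.2 * val t.1.1 t.1.2 n = k ^ ℓ) {N : ℝ}
    (hN : (((primesTo x).filter (fun p : ℕ => (∀ l, (p : ℤ) ∣ t.1.2 l) ∨ (p : ℤ) ∣ t.2)).card : ℝ) ≤ N) :
    (((Pset ℓ x).card : ℝ) - N) / 3 ≤ ∑ p ∈ Pset ℓ x, gpow ℓ t p n := by
  classical
  have h1 : ∀ p ∈ Pset ℓ x, (1 / 3 : ℝ) - (if (∀ l, (p : ℤ) ∣ t.1.2 l) ∨ (p : ℤ) ∣ t.2 then 1 / 3 else 0) ≤ gpow ℓ t p n := by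
    intro p hp
    obtain ⟨⟨hpp, _⟩, hmod, hp3⟩ := mem_Pset.1 hp
    have : Fact p.Prime := ⟨hpp⟩
    by_cases hbad : (∀ l, (p : ℤ) ∣ t.1.2 l) ∨ (p : ℤ) ∣ t.2
    · rw [if_pos hbad, sub_self]
      unfold gpow
      rw [dif_neg]
      rintro ⟨_, ⟨l, hl⟩, h2⟩
      rcases hbad with h | h
      · exact hl (h l)
      · exact h2 h
    · rw [if_neg hbad, sub_zero]
      rw [not_or, not_forall] at hbad
      unfold gpow
      rw [dif_pos ⟨hpp, hbad.1, hbad.2⟩]
      have h2 : pw ℓ p (((t.2 * val t.1.1 t.1.2 n : ℤ) : ZMod p)) = 1 := by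
        unfold pw
        rw [if_pos]
        refine ⟨(k : ZMod p), ?_⟩
        rw [hk]
        push_cast
        rfl
      rw [h2]
      have h3 := dens_le ℓ p hℓ hp3 hmod
      linarith
  refine le_trans ?_ (sum_le_sum h1)
  rw [sum_sub_distrib, sum_const, nsmul_eq_mul, ← sum_filter, sum_const, nsmul_eq_mul]
  have h2 : (((Pset ℓ x).filter (fun p : ℕ => (∀ l, (p : ℤ) ∣ t.1.2 l) ∨ (p : ℤ) ∣ t.2)).card : ℝ) ≤ N := by
    refine le_trans (Nat.cast_le.2 (card_le_card ?_)) hN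
    intro p hp
    rw [mem_filter] at hp ⊢
    exact ⟨mem_primesTo.2 (mem_Pset.1 hp.1).1, hp.2⟩
  linarith

/-- **The twisted values are not `ℓ`-th powers.** `φ θ P` is an affine form with a twist, for every parameter vector `P : I → ℤ` in the
box; for every admissible `P` there are two nonzero integers of bounded size such that a prime for which the form is not primitive or which
divides the twist divides one of them. -/
theorem powers {ℓ : ℕ} (hℓ : ℓ.Prime) {L : Type} [Fintype L] {m : ℕ} {e w : L → ℝ} {μ : L → Fin m} (hs : Setting e w μ)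
    (A W B : ℕ) (I : Type) [Fintype I] [DecidableEq I] {Θ : Type} (φ : Θ → (I → ℤ) → Form L) (Adm : Θ → (I → ℤ) → Prop)
    (hA : ∀ θ P, Adm θ P → ∃ i j, P i ≠ 0 ∧ P j ≠ 0 ∧ ∀ p : ℕ, p.Prime →
      ((∀ l, (p : ℤ) ∣ (φ θ P).1.2 l) ∨ (p : ℤ) ∣ (φ θ P).2) → (p : ℤ) ∣ P i ∨ (p : ℤ) ∣ P j) :
    ForAlmostAll e w μ A W (fun (θ : Θ) x n => ∀ P : I → ℤ, (∀ i, |P i| ≤ (x : ℤ) ^ B) → Adm θ P →
      ∀ k : ℤ, (φ θ P).2 * val (φ θ P).1.1 (φ θ P).1.2 n ≠ k ^ ℓ) := by
  classical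
  obtain ⟨x₁, hx₁⟩ := many_ap hℓ
  have h2 : Tendsto (fun x : ℕ => (x : ℝ) ^ (1 / 16 : ℝ)) atTop atTop :=
    (tendsto_rpow_atTop (by norm_num)).comp tendsto_natCast_atTop_atTop
  obtain ⟨x₂, hx₂⟩ := eventually_atTop.1 (h2.eventually (eventually_ge_atTop (64 * (B : ℝ) + 4)))
  refine ForAlmostAll.mono (centered_fam hs (show (0 : ℝ) < 1 / 16 by norm_num) A W ((B + 2) * Fintype.card I) (apSets ℓ)
    (fun θ x => (box I (x ^ B)).image (φ θ)) (fun θ x hx => card_image_le.trans (card_box_le I hx le_rfl))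
    (fun t p n => gpow ℓ t p n) (fun t p n _ => gpow_mod ℓ t p n) (fun t p n _ => gpow_bound ℓ t p n)
    (fun t p hp => avg_gpow ℓ t hp)) (x₁ + x₂ + 2) ?_
  intro θ x n hx h P hP hAd k hk
  have h3 := h (Pset ℓ x) (mem_singleton_self _) (φ θ P) (mem_image_of_mem _ (mem_box.2 (by push_cast; exact hP)))
  obtain ⟨i, j, hi, hj, hp⟩ := hA θ P hAd
  have h4 : (primesTo x).filter (fun p : ℕ => (∀ l, (p : ℤ) ∣ (φ θ P).1.2 l) ∨ (p : ℤ) ∣ (φ θ P).2) ⊆
      (primesTo x).filter (fun p : ℕ => (p : ℤ) ∣ P i) ∪ (primesTo x).filter (fun p : ℕ => (p : ℤ) ∣ P j) := by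
    intro p hp'
    rw [mem_filter] at hp'
    rw [mem_union, mem_filter, mem_filter]
    rcases hp p (mem_primesTo.1 hp'.1).1 hp'.2 with h2 | h2
    · exact Or.inl ⟨hp'.1, h2⟩
    · exact Or.inr ⟨hp'.1, h2⟩
  have h5 := few_primes hi (hP i)
  have h6 := few_primes hj (hP j)
  have h7 : (((primesTo x).filter (fun p : ℕ => (∀ l, (p : ℤ) ∣ (φ θ P).1.2 l) ∨ (p : ℤ) ∣ (φ θ P).2)).card : ℝ) ≤
      4 * B * Real.log x := by
    have h8 : (((primesTo x).filter (fun p : ℕ => (∀ l, (p : ℤ) ∣ (φ θ P).1.2 l) ∨ (p : ℤ) ∣ (φ θ P).2)).card : ℝ) ≤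
        (((primesTo x).filter (fun p : ℕ => (p : ℤ) ∣ P i)).card : ℝ) + ((primesTo x).filter (fun p : ℕ => (p : ℤ) ∣ P j)).card := by
      exact_mod_cast (card_le_card h4).trans (card_union_le _ _)
    linarith
  have h8 := (sum_gpow_ge hℓ (φ θ P) x n hk h7).trans ((le_abs_self _).trans h3)
  -- the contradiction
  have hxr : (2 : ℝ) ≤ x := by exact_mod_cast (by omega : 2 ≤ x)
  have hx0 : (0 : ℝ) < x := by linarith
  obtain ⟨u, hu⟩ : ∃ u, u = (x : ℝ) ^ (1 / 16 : ℝ) := ⟨_, rfl⟩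
  have hu4 : 64 * (B : ℝ) + 4 ≤ u := by rw [hu]; exact hx₂ x (by omega)
  have hB0 : (0 : ℝ) ≤ B := Nat.cast_nonneg _
  have hu0 : 4 ≤ u := by linarith
  have hN4 : u ^ 4 ≤ (Pset ℓ x).card := by
    have h9 := hx₁ x (by omega)
    have h10 : (x : ℝ) ^ (1 / 4 : ℝ) = u ^ 4 := by
      rw [hu, ← Real.rpow_natCast, ← Real.rpow_mul hx0.le]
      norm_num
    rwa [h10] at h9
  have hlog : Real.log x ≤ 16 * u := by
    have h9 := Real.log_le_rpow_div hx0.le (show (0 : ℝ) < 1 / 16 by norm_num)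
    rw [hu]
    linarith
  have hN1 : (1 : ℝ) ≤ (Pset ℓ x).card := le_trans (one_le_pow₀ (by linarith)) hN4
  rw [max_eq_right hN1, ← hu] at h8
  obtain ⟨r, hr⟩ : ∃ r, r = Real.sqrt ((Pset ℓ x).card : ℝ) := ⟨_, rfl⟩
  have hr0 : 0 ≤ r := by rw [hr]; exact Real.sqrt_nonneg _
  have hrr : r * r = (Pset ℓ x).card := by rw [hr]; exact Real.mul_self_sqrt (by linarith)
  have hru : u ^ 2 ≤ r := by
    rw [hr]
    apply Real.le_sqrt_of_sq_le
    calc (u ^ 2) ^ 2 = u ^ 4 := by ring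
      _ ≤ _ := hN4
  rw [← hr, ← hrr] at h8
  have hBl : 4 * B * Real.log x ≤ u ^ 2 := by
    calc 4 * B * Real.log x ≤ 4 * B * (16 * u) := mul_le_mul_of_nonneg_left hlog (by positivity)
      _ = (64 * B) * u := by ring
      _ ≤ u * u := mul_le_mul_of_nonneg_right (by linarith) (by linarith)
      _ = u ^ 2 := by ring
  have h9 : r * r ≤ 3 * r * u + r := by linarith
  have hr1 : 0 < r := by
    have : 0 < u ^ 2 := by positivity
    linarith
  have h10 : r ≤ 3 * u + 1 := by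
    have h11 : r * r ≤ r * (3 * u + 1) := by linarith
    exact le_of_mul_le_mul_left h11 hr1
  nlinarith

end Pool.Agent.Q77.NP
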